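import Pool.Agent.Q237.LR.Stm5

set_option autoImplicit false

namespace Pool.Agent.Q186.LR5

open MeasureTheory ProbabilityTheory Set Filter Topology Pool.Agent.Q237.LR2 Pool.Agent.Q237.LR3
  Pool.Agent.Q237.LR4 Pool.Agent.Q237.LR5

/-- small exponents -/
theorem expo (dd α θ : ℝ) (hdd : 1 ≤ dd) (h1 : dd / 2 < α) (h2 : α < dd) (h3 : θ < 2 - 2 * α / dd) :
    ∃ a s : ℝ, 0 < a ∧ s * dd = 1 + 2 * a + 4 * a * α / dd ∧ 2 * a / dd ≤ s ∧ 0 < s ∧
      0 < 1 - θ - a - s * (2 * α - dd) := by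
  have hd0 : 0 < dd := by linarith
  set x := α / dd with hx
  have hαx : α = x * dd := by rw [hx]; field_simp
  have hx1 : 1 / 2 < x := by
    rw [hx, lt_div_iff₀ hd0]
    linarith
  have hx2 : x < 1 := by
    rw [hx, div_lt_one hd0]
    exact h2
  have h4 : 2 * α / dd = 2 * x := by rw [hx]; ring
  rw [h4] at h3
  set r := 2 - 2 * x - θ with hr
  have hr0 : 0 < r := by rw [hr]; linarith
  refine ⟨r / 8, (1 + 2 * (r / 8) + 4 * (r / 8) * α / dd) / dd, by positivity, ?_, ?_, ?_, ?_⟩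
  · field_simp
  · apply div_le_div_of_nonneg_right _ hd0.le
    have : 0 ≤ 4 * (r / 8) * α / dd := by
      have : 0 < α := by linarith
      positivity
    linarith
  · have : 0 < α := by linarith
    positivity
  · have h5 : (1 + 2 * (r / 8) + 4 * (r / 8) * α / dd) / dd * (2 * α - dd) =
        (1 + 2 * (r / 8) + 4 * (r / 8) * x) * (2 * x - 1) := by
      rw [hαx]
      field_simp
    rw [h5]
    have h6 : θ = 2 - 2 * x - r := by rw [hr]; ring
    rw [h6]
    nlinarith [mul_pos hr0 (sub_pos.2 hx1), mul_pos hr0 (sub_pos.2 hx2),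
      mul_pos hr0 (mul_pos (sub_pos.2 hx2) (sub_pos.2 hx1))]

theorem small (γ A : ℝ) (hγ : 0 < γ) (hA : 0 < A) :
    ∃ η0 : ℝ, 0 < η0 ∧ η0 ≤ 1 ∧ ∀ η : ℝ, 0 < η → η ≤ η0 → 40 * η ^ γ < A := by
  refine ⟨min 1 ((A / 80) ^ (1 / γ)), lt_min one_pos (Real.rpow_pos_of_pos (by positivity) _),
    min_le_left _ _, fun η h0 h => ?_⟩
  have h1 : η ^ γ ≤ A / 80 := by
    calc η ^ γ ≤ ((A / 80) ^ (1 / γ)) ^ γ :=
          Real.rpow_le_rpow h0.le (h.trans (min_le_right _ _)) hγ.le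
      _ = A / 80 := by
          rw [← Real.rpow_mul (by positivity), one_div_mul_cancel hγ.ne', Real.rpow_one]
  linarith

theorem pw4 : S_PW4 := by
  classical
  intro d α e θ K D hd hα hαd he hθ0 hθ hK hD
  have hdd : (1 : ℝ) ≤ (d : ℝ) := by exact_mod_cast hd
  have hd0 : (0 : ℝ) < (d : ℝ) := by linarith
  have hα0 : 0 < α := by linarith
  obtain ⟨a, s, ha, hs1, hs2, hs0, hs3⟩ := expo (d : ℝ) α θ hdd hα hαd hθ
  have he' : 0 < |e| := abs_pos.2 he
  have hA : (0 : ℝ) < e ^ 2 * 5 ^ ((d : ℝ) - 2 * α) := by positivity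
  obtain ⟨η0, hη00, hη01, hη0⟩ := small _ _ hs3 hA
  refine ⟨2 * K + 8 * K * (Real.pi * D) ^ 2 * 3 ^ d + 32 * K * Real.pi * D, a, η0, ?_, ha, hη00,
    hη01, fun η h0 hη => ?_⟩
  · have : 0 ≤ 32 * K * Real.pi * D := by positivity
    have h2 : 0 ≤ 8 * K * (Real.pi * D) ^ 2 * 3 ^ d := by positivity
    linarith
  have hη1 : η ≤ 1 := hη.trans hη01
  obtain ⟨L, hLlo, hLhi⟩ : ∃ L : ℕ, 4 * η ^ (-s) ≤ (L : ℝ) ∧ (L : ℝ) ≤ 5 * η ^ (-s) := by
    have h1 : (1 : ℝ) ≤ η ^ (-s) := Real.one_le_rpow_of_pos_of_le_one_of_nonpos h0 hη1 (by linarith)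
    refine ⟨⌈4 * η ^ (-s)⌉₊, Nat.le_ceil _, ?_⟩
    have := (Nat.ceil_lt_add_one (show (0 : ℝ) ≤ 4 * η ^ (-s) by positivity)).le
    linarith
  have hηs : (1 : ℝ) ≤ η ^ (-s) := Real.one_le_rpow_of_pos_of_le_one_of_nonpos h0 hη1 (by linarith)
  have hL1 : (1 : ℝ) ≤ L := by linarith
  have hL : (0 : ℝ) < L := by linarith
  set t : ℝ := η ^ (2 * a / d) with ht
  have ht0 : 0 < t := Real.rpow_pos_of_pos h0 _
  have htL : 1 ≤ t * L := by
    have h1 : (1 : ℝ) ≤ η ^ (2 * a / d - s) :=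
      Real.one_le_rpow_of_pos_of_le_one_of_nonpos h0 hη1 (by linarith)
    calc (1 : ℝ) ≤ 4 * η ^ (2 * a / d - s) := by linarith
      _ = t * (4 * η ^ (-s)) := by
        rw [ht, sub_eq_add_neg, Real.rpow_add h0]
        ring
      _ ≤ t * L := mul_le_mul_of_nonneg_left hLlo ht0.le
  have htd : t ^ d = η ^ (2 * a) := by
    rw [ht, ← Real.rpow_natCast, ← Real.rpow_mul h0.le]
    congr 1
    field_simp
  -- the size of the box
  have hLd : 4 * η ^ (-(1 + 2 * a + 4 * a * α / d)) ≤ (L : ℝ) ^ d := by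
    calc 4 * η ^ (-(1 + 2 * a + 4 * a * α / d)) ≤ 4 ^ d * η ^ (-(1 + 2 * a + 4 * a * α / d)) := by
          refine mul_le_mul_of_nonneg_right ?_ (Real.rpow_nonneg h0.le _)
          exact le_self_pow₀ (by norm_num) (by omega)
      _ = (4 * η ^ (-s)) ^ d := by
          rw [mul_pow, ← hs1, ← Real.rpow_natCast (η ^ (-s)), ← Real.rpow_mul h0.le]
          congr 2
          ring
      _ ≤ (L : ℝ) ^ d := pow_le_pow_left₀ (by positivity) hLlo d
  let Q : Finset (Fin d → ℤ) := Fintype.piFinset fun _ => Finset.Ico 0 (L : ℤ)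
  have hQ : (Q.card : ℝ) = (L : ℝ) ^ d := by
    have : Q.card = L ^ d := by simp [Q, Fintype.card_piFinset]
    rw [this]
    push_cast
    rfl
  have hβ : 0 < |e| * (L : ℝ) ^ (-α) := mul_pos he' (Real.rpow_pos_of_pos hL _)
  have hηa : 0 < η ^ a := Real.rpow_pos_of_pos h0 _
  have hLdp : (0 : ℝ) < (L : ℝ) ^ d := by positivity
  refine ⟨Q, |e| * (L : ℝ) ^ (-α), t ^ (-α), η ^ a * (L : ℝ) ^ d, (3 * t * L) ^ d,
    fun x => Q.filter (fun y => y ≠ x ∧ ‖x - y‖ ≤ t * L),
    fun x => Q.filter (fun y => ¬ ‖x - y‖ ≤ t * L), ?_, hβ, by positivity, ?_, ?_,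
    fun x hx => ⟨?_, ?_, ?_, ?_, ?_, ?_, ?_⟩, ?_⟩
  · rw [← Finset.card_pos]
    have : (0 : ℝ) < Q.card := by
      rw [hQ]
      positivity
    exact_mod_cast this
  · -- `4 / η ≤ q`
    have h1 : (1 : ℝ) ≤ η ^ (-(a + 4 * a * α / d)) := by
      refine Real.one_le_rpow_of_pos_of_le_one_of_nonpos h0 hη1 ?_
      have : 0 ≤ 4 * a * α / d := by positivity
      linarith
    calc 4 / η = 4 * η⁻¹ * 1 := by ring
      _ ≤ 4 * η⁻¹ * η ^ (-(a + 4 * a * α / d)) := mul_le_mul_of_nonneg_left h1 (by positivity)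
      _ = η ^ a * (4 * η ^ (-(1 + 2 * a + 4 * a * α / d))) := by
          rw [← Real.rpow_neg_one, mul_assoc, ← Real.rpow_add h0, mul_left_comm, ← Real.rpow_add h0]
          congr 2
          ring
      _ ≤ η ^ a * (L : ℝ) ^ d := mul_le_mul_of_nonneg_left hLd hηa.le
  · -- `β ^ 2 q`
    have h1 : (5 * η ^ (-s)) ^ ((d : ℝ) - 2 * α) ≤ (L : ℝ) ^ ((d : ℝ) - 2 * α) :=
      Real.rpow_le_rpow_of_nonpos hL hLhi (by linarith)
    have h2 : (5 * η ^ (-s)) ^ ((d : ℝ) - 2 * α) =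
        5 ^ ((d : ℝ) - 2 * α) * η ^ (s * (2 * α - d)) := by
      rw [Real.mul_rpow (by norm_num) (Real.rpow_nonneg h0.le _), ← Real.rpow_mul h0.le]
      congr 2
      ring
    have h3 : (|e| * (L : ℝ) ^ (-α)) ^ 2 * (η ^ a * (L : ℝ) ^ d) =
        e ^ 2 * η ^ a * (L : ℝ) ^ ((d : ℝ) - 2 * α) := by
      have h4 : (L : ℝ) ^ ((d : ℝ) - 2 * α) = ((L : ℝ) ^ (-α)) ^ 2 * (L : ℝ) ^ d := by
        rw [← Real.rpow_natCast (L : ℝ) d, ← Real.rpow_natCast ((L : ℝ) ^ (-α)) 2,
          ← Real.rpow_mul hL.le, ← Real.rpow_add hL]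
        congr 1
        push_cast
        ring
      rw [h4, mul_pow, sq_abs]
      ring
    have h5 := hη0 η h0 hη
    have h6 : (0 : ℝ) < η ^ (a + s * (2 * α - d)) := Real.rpow_pos_of_pos h0 _
    calc 8 * (5 * η ^ (-θ) * η) = 40 * η ^ (1 - θ - a - s * (2 * α - d)) *
          η ^ (a + s * (2 * α - d)) := by
          rw [mul_assoc 40, ← Real.rpow_add h0]
          have : η ^ (-θ) * η = η ^ (1 - θ) := by
            nth_rw 2 [← Real.rpow_one η]
            rw [← Real.rpow_add h0]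
            congr 1
            ring
          rw [mul_assoc 5, this]
          have h7 : 1 - θ - a - s * (2 * α - d) + (a + s * (2 * α - d)) = 1 - θ := by ring
          rw [h7]
          ring
      _ < e ^ 2 * 5 ^ ((d : ℝ) - 2 * α) * η ^ (a + s * (2 * α - d)) :=
          mul_lt_mul_of_pos_right h5 h6
      _ = e ^ 2 * η ^ a * (5 * η ^ (-s)) ^ ((d : ℝ) - 2 * α) := by
          rw [h2, Real.rpow_add h0]
          ring
      _ ≤ e ^ 2 * η ^ a * (L : ℝ) ^ ((d : ℝ) - 2 * α) :=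
          mul_le_mul_of_nonneg_left h1 (by positivity)
      _ = _ := h3.symm
  · exact Finset.filter_subset _ _
  · exact Finset.filter_subset _ _
  · simp
  · simp only [Finset.mem_filter, not_and, not_not]
    intro _
    rw [sub_self, norm_zero]
    positivity
  · intro y hy
    rw [Finset.mem_erase] at hy
    rw [Finset.mem_union, Finset.mem_filter, Finset.mem_filter]
    by_cases h : ‖x - y‖ ≤ t * L
    · exact Or.inl ⟨hy.2, hy.1, h⟩
    · exact Or.inr ⟨hy.2, h⟩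
  · -- the number of near points
    have hk0 : (0 : ℤ) ≤ ⌊t * (L : ℝ)⌋ := Int.floor_nonneg.2 (by positivity)
    obtain ⟨k, hk⟩ : ∃ k : ℕ, ⌊t * (L : ℝ)⌋ = (k : ℤ) := Int.eq_ofNat_of_zero_le hk0
    have hkL : (k : ℝ) ≤ t * L := by
      have := Int.floor_le (t * (L : ℝ))
      rw [hk] at this
      exact_mod_cast this
    have hsub : Q.filter (fun y => y ≠ x ∧ ‖x - y‖ ≤ t * L) ⊆
        Fintype.piFinset fun i => Finset.Icc (x i - k) (x i + k) := by
      intro y hy
      rw [Finset.mem_filter] at hy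
      rw [Fintype.mem_piFinset]
      intro i
      have h5 : ‖(x - y) i‖ ≤ t * L := (norm_le_pi_norm _ i).trans hy.2.2
      rw [Int.norm_eq_abs, Pi.sub_apply] at h5
      have h6 : |x i - y i| ≤ (k : ℤ) := by
        rw [← hk, Int.le_floor]
        push_cast
        push_cast at h5
        exact h5
      rw [abs_le] at h6
      rw [Finset.mem_Icc]
      constructor <;> omega
    have h7 : ((Q.filter (fun y => y ≠ x ∧ ‖x - y‖ ≤ t * L)).card : ℝ) ≤ ((2 * k + 1 : ℕ) : ℝ) ^ d := by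
      have h8 := Finset.card_le_card hsub
      rw [Fintype.card_piFinset] at h8
      have h9 : ∀ i : Fin d, (Finset.Icc (x i - k) (x i + k)).card = 2 * k + 1 := by
        intro i
        rw [Int.card_Icc]
        omega
      rw [Finset.prod_congr rfl fun i _ => h9 i, Finset.prod_const, Finset.card_univ, Fintype.card_fin] at h8
      exact_mod_cast h8
    refine h7.trans ?_
    have h10 : ((2 * k + 1 : ℕ) : ℝ) ≤ 3 * t * L := by
      push_cast
      linarith
    exact pow_le_pow_left₀ (by positivity) h10 d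
  · intro y hy
    rw [Finset.mem_filter] at hy
    obtain ⟨hyQ, hy⟩ := hy
    rw [not_le] at hy
    have hn0 : 0 < ‖x - y‖ := lt_of_le_of_lt (by positivity) hy
    have hne : x - y ≠ 0 := norm_pos_iff.1 hn0
    have hnL : ‖x - y‖ ≤ L := by
      rw [pi_norm_le_iff_of_nonneg hL.le]
      intro i
      have hx' := (Fintype.mem_piFinset.1 hx) i
      have hy' := (Fintype.mem_piFinset.1 hyQ) i
      rw [Finset.mem_Ico] at hx' hy'
      rw [Int.norm_eq_abs, Pi.sub_apply]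
      have : |x i - y i| ≤ (L : ℤ) := by
        rw [abs_le]
        constructor <;> omega
      exact_mod_cast this
    have hpw : |pw d α e (x - y)| = |e| * ‖x - y‖ ^ (-α) := by
      unfold pw
      rw [if_neg hne, abs_mul, abs_of_nonneg (Real.rpow_nonneg hn0.le (-α))]
    rw [hpw]
    constructor
    · exact mul_le_mul_of_nonneg_left (Real.rpow_le_rpow_of_nonpos hn0 hnL (by linarith)) he'.le
    · calc |e| * ‖x - y‖ ^ (-α) ≤ |e| * (t * L) ^ (-α) :=
          mul_le_mul_of_nonneg_left (Real.rpow_le_rpow_of_nonpos (by positivity) hy.le (by linarith)) he'.le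
        _ = t ^ (-α) * (|e| * (L : ℝ) ^ (-α)) := by
          rw [Real.mul_rpow ht0.le hL.le]
          ring
  · -- the sum
    rw [hQ]
    have hT1 : 2 * K * (η ^ a * (L : ℝ) ^ d) = (L : ℝ) ^ d * (2 * K * η ^ a) := by ring
    have hT2 : (L : ℝ) ^ d * (2 * K * (Real.pi * D) ^ 2 * (3 * t * L) ^ d /
        (η ^ a * (L : ℝ) ^ d / 4)) =
        (L : ℝ) ^ d * (8 * K * (Real.pi * D) ^ 2 * 3 ^ d * η ^ a) := by
      have h1 : (3 * t * (L : ℝ)) ^ d = 3 ^ d * (η ^ a * η ^ a) * (L : ℝ) ^ d := by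
        rw [mul_pow, mul_pow, htd, two_mul, Real.rpow_add h0]
      rw [h1]
      field_simp
      ring
    have hB : (t ^ (-α)) ^ 2 = η ^ (-(4 * a * α / d)) := by
      rw [ht, ← Real.rpow_mul h0.le, ← Real.rpow_natCast, ← Real.rpow_mul h0.le]
      congr 1
      push_cast
      ring
    have hT3 : (L : ℝ) ^ d * (2 * K * Real.pi * D * (16 * (t ^ (-α)) ^ 2 /
        (η * (η ^ a * (L : ℝ) ^ d / 4)))) ≤ (L : ℝ) ^ d * (32 * K * Real.pi * D * η ^ a) := by
      refine mul_le_mul_of_nonneg_left ?_ hLdp.le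
      have h2 : 16 * (t ^ (-α)) ^ 2 / (η * (η ^ a * (L : ℝ) ^ d / 4)) ≤ 16 * η ^ a := by
        rw [div_le_iff₀ (by positivity), hB]
        calc 16 * η ^ (-(4 * a * α / d)) =
              16 * η ^ a * (η * (η ^ a * (4 * η ^ (-(1 + 2 * a + 4 * a * α / d))) / 4)) := by
              have : η ^ (-(4 * a * α / d)) =
                  η ^ a * η * η ^ a * η ^ (-(1 + 2 * a + 4 * a * α / d)) := by
                have h1 : η ^ a * η * η ^ a * η ^ (-(1 + 2 * a + 4 * a * α / d)) =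
                    η ^ a * η ^ (1 : ℝ) * η ^ a * η ^ (-(1 + 2 * a + 4 * a * α / d)) := by
                  rw [Real.rpow_one]
                rw [h1, ← Real.rpow_add h0, ← Real.rpow_add h0, ← Real.rpow_add h0]
                congr 1
                ring
              rw [this]
              ring
          _ ≤ 16 * η ^ a * (η * (η ^ a * (L : ℝ) ^ d / 4)) := by
              refine mul_le_mul_of_nonneg_left ?_ (by positivity)
              refine mul_le_mul_of_nonneg_left ?_ h0.le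
              refine div_le_div_of_nonneg_right ?_ (by norm_num)
              exact mul_le_mul_of_nonneg_left hLd hηa.le
      calc 2 * K * Real.pi * D * (16 * (t ^ (-α)) ^ 2 / (η * (η ^ a * (L : ℝ) ^ d / 4))) ≤
            2 * K * Real.pi * D * (16 * η ^ a) := mul_le_mul_of_nonneg_left h2 (by positivity)
        _ = 32 * K * Real.pi * D * η ^ a := by ring
    rw [hT1, hT2]
    calc (L : ℝ) ^ d * (2 * K * η ^ a) + (L : ℝ) ^ d * (8 * K * (Real.pi * D) ^ 2 * 3 ^ d * η ^ a) +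
          (L : ℝ) ^ d * (2 * K * Real.pi * D * (16 * (t ^ (-α)) ^ 2 /
            (η * (η ^ a * (L : ℝ) ^ d / 4)))) ≤
          (L : ℝ) ^ d * (2 * K * η ^ a) + (L : ℝ) ^ d * (8 * K * (Real.pi * D) ^ 2 * 3 ^ d * η ^ a) +
          (L : ℝ) ^ d * (32 * K * Real.pi * D * η ^ a) := by linarith
      _ = _ := by ring

end Pool.Agent.Q186.LR5
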